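import Mathlib

set_option autoImplicit false
set_option maxHeartbeats 1000000

/-!
# Hilbert cubes in the squares: every face of dimension at least three has a centre divisible by
two different primes congruent to `1` modulo `4`

Let `a₀ + {0, a₁} + ⋯ + {0, a_d}` be a Hilbert cube contained in the squares, all `a_i ≠ 0`.  Opposite
elements of a face of dimension at least `3` have the same sum `c` on the whole face.  We show that
`c` has at least two different prime factors congruent to `1` modulo `4`.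

Proof.  One may assume that `d = 3`, that the `a_i` are positive and that `c = 2 ^ s * p ^ k` with
`s ≤ 1`, `p ≡ 1 (mod 4)`.  The differences `D` of the four pairs of opposite elements satisfy
`D ^ 2 + (2 u v) ^ 2 = c ^ 2`; two of them which have the same `p`-adic valuation `< k` agree up to the
sign.  As `D₀ = D₁ + D₂ + D₃` with `D_i + D_j ≠ 0` and `|D_i| < D₀` this is impossible modulo the least
power of `p` which does not divide all of them.
-/

namespace Pool.Agent.Results.MP_de59a9_nt.TwoSplitPrimes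

lemma l3 (K Q m x y x' y' : ℤ) (hQ : Q ≠ 0) (hK : 0 < K)
    (h1 : x ^ 2 + y ^ 2 = (K * Q) ^ 2) (h2 : x' ^ 2 + y' ^ 2 = (K * Q) ^ 2)
    (hd : Q ^ 2 ∣ x * y' - x' * y) (hm : m ∣ x * y' - x' * y) (hmQ : IsCoprime m Q)
    (hmK : K ^ 4 < m ^ 2) : x' = x ∨ x' = -x := by
  obtain ⟨t, ht⟩ := hd
  have hN : (x * x' + y * y') ^ 2 = Q ^ 4 * (K ^ 4 - t ^ 2) := by
    have e1 : (x * x' + y * y') ^ 2 + (x * y' - x' * y) ^ 2
        = (x ^ 2 + y ^ 2) * (x' ^ 2 + y' ^ 2) := by ring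
    rw [h1, h2, ht] at e1
    linear_combination e1
  have hQ4 : 0 < Q ^ 4 := by positivity
  have ht2 : t ^ 2 ≤ K ^ 4 := by
    by_contra hcon
    push Not at hcon
    have h3 : Q ^ 4 * (K ^ 4 - t ^ 2) < 0 := mul_neg_of_pos_of_neg hQ4 (by linarith)
    have h4 := sq_nonneg (x * x' + y * y')
    linarith
  have hmt : m ∣ t := by
    rw [ht] at hm
    exact (hmQ.pow_right (n := 2)).dvd_of_dvd_mul_left hm
  have ht0 : t = 0 := by
    obtain ⟨w, hw⟩ := hmt
    by_contra hne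
    have hw0 : w ≠ 0 := by
      rintro rfl
      exact hne (by rw [hw, mul_zero])
    have hw1 : 1 ≤ w ^ 2 := by
      have : 0 < w ^ 2 := by positivity
      linarith
    have : t ^ 2 = m ^ 2 * w ^ 2 := by rw [hw]; ring
    nlinarith [sq_nonneg m]
  subst ht0
  have hM : x * y' = x' * y := by linarith
  have hN2 : (x * x' + y * y') ^ 2 = ((K * Q) ^ 2) ^ 2 := by rw [hN]; ring
  have hKQ : (K * Q) ^ 2 ≠ 0 := by positivity
  have key : x' * (K * Q) ^ 2 = x * (x * x' + y * y') := by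
    rw [← h1]
    linear_combination (-y) * hM
  rcases sq_eq_sq_iff_eq_or_eq_neg.mp hN2 with h | h
  · left
    rw [h] at key
    exact mul_right_cancel₀ hKQ key
  · right
    rw [h] at key
    apply mul_right_cancel₀ hKQ
    linear_combination key

lemma l2 (p : ℕ) (hp : p.Prime) (hp5 : 5 ≤ p) (s k V : ℕ) (hs : s ≤ 1) (hV : V < k)
    (u v u' v' x x' : ℤ) (h1 : u ^ 2 + v ^ 2 = 2 ^ s * (p : ℤ) ^ k)
    (h2 : u' ^ 2 + v' ^ 2 = 2 ^ s * (p : ℤ) ^ k)
    (hx : u ^ 2 - v ^ 2 = (p : ℤ) ^ V * x) (hx' : u' ^ 2 - v' ^ 2 = (p : ℤ) ^ V * x')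
    (hpx : ¬ (p : ℤ) ∣ x) (hpx' : ¬ (p : ℤ) ∣ x') : x' = x ∨ x' = -x := by
  have hpz : Prime (p : ℤ) := Nat.prime_iff_prime_int.mp hp
  have hp0 : (p : ℤ) ≠ 0 := hpz.ne_zero
  have hpV : (p : ℤ) ^ V ≠ 0 := pow_ne_zero _ hp0
  obtain ⟨j, rfl⟩ : ∃ j, k = V + (j + 1) := ⟨k - V - 1, by omega⟩
  -- the second coordinates
  have aux : ∀ u v x : ℤ, u ^ 2 + v ^ 2 = 2 ^ s * (p : ℤ) ^ (V + (j + 1)) →
      u ^ 2 - v ^ 2 = (p : ℤ) ^ V * x →
      ∃ y : ℤ, 2 * u * v = (p : ℤ) ^ V * y ∧ x ^ 2 + y ^ 2 = (2 ^ s * (p : ℤ) ^ (j + 1)) ^ 2 := by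
    intro u v x h1 hx
    have e : (2 * u * v) ^ 2 = ((p : ℤ) ^ V) ^ 2 * ((2 ^ s * (p : ℤ) ^ (j + 1)) ^ 2 - x ^ 2) := by
      have e1 : (2 * u * v) ^ 2 = (u ^ 2 + v ^ 2) ^ 2 - (u ^ 2 - v ^ 2) ^ 2 := by ring
      rw [e1, h1, hx, pow_add]
      ring
    have hd : (p : ℤ) ^ V ∣ 2 * u * v := by
      have : ((p : ℤ) ^ V) ^ 2 ∣ (2 * u * v) ^ 2 := ⟨_, e⟩
      exact (Int.pow_dvd_pow_iff (by norm_num)).mp this
    obtain ⟨y, hy⟩ := hd
    refine ⟨y, hy, ?_⟩
    rw [hy] at e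
    have h3 : ((p : ℤ) ^ V) ^ 2 * y ^ 2
        = ((p : ℤ) ^ V) ^ 2 * ((2 ^ s * (p : ℤ) ^ (j + 1)) ^ 2 - x ^ 2) := by
      rw [← e]; ring
    have h4 := mul_left_cancel₀ (pow_ne_zero 2 hpV) h3
    rw [h4]; ring
  obtain ⟨y, hy, hxy⟩ := aux u v x h1 hx
  obtain ⟨y', hy', hxy'⟩ := aux u' v' x' h2 hx'
  have hpodd : Odd (p : ℤ) := by
    have := hp.odd_of_ne_two (by omega)
    exact_mod_cast this
  have hc2 : ∀ n m : ℕ, IsCoprime ((2 : ℤ) ^ m) ((p : ℤ) ^ n) := by
    intro n m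
    apply IsCoprime.pow
    exact (Int.isCoprime_iff_gcd_eq_one.mpr (by
      have := (Nat.coprime_primes Nat.prime_two hp).mpr (by omega)
      simpa [Int.gcd] using this))
  -- the auxiliary modulus
  obtain ⟨m, hmx, hmx', hmQ, hmK⟩ : ∃ m : ℤ, (m ∣ x ∨ (m ∣ y ∧ m ∣ y')) ∧
      (m ∣ x' ∨ (m ∣ y ∧ m ∣ y')) ∧ IsCoprime m ((p : ℤ) ^ (j + 1)) ∧
      ((2 : ℤ) ^ s) ^ 4 < m ^ 2 := by
    interval_cases s
    · refine ⟨2, ?_, ?_, ?_, by norm_num⟩
      · right
        have a1 : ∀ u v y : ℤ, 2 * u * v = (p : ℤ) ^ V * y → (2 : ℤ) ∣ y := by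
          intro u v y h
          have : (2 : ℤ) ∣ (p : ℤ) ^ V * y := ⟨u * v, by rw [← h]; ring⟩
          have hcc : IsCoprime (2 : ℤ) ((p : ℤ) ^ V) := by simpa using hc2 V 1
          exact hcc.dvd_of_dvd_mul_left this
        exact ⟨a1 u v y hy, a1 u' v' y' hy'⟩
      · right
        have a1 : ∀ u v y : ℤ, 2 * u * v = (p : ℤ) ^ V * y → (2 : ℤ) ∣ y := by
          intro u v y h
          have : (2 : ℤ) ∣ (p : ℤ) ^ V * y := ⟨u * v, by rw [← h]; ring⟩
          have hcc : IsCoprime (2 : ℤ) ((p : ℤ) ^ V) := by simpa using hc2 V 1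
          exact hcc.dvd_of_dvd_mul_left this
        exact ⟨a1 u v y hy, a1 u' v' y' hy'⟩
      · simpa using hc2 (j + 1) 1
    · have a1 : ∀ u v x : ℤ, u ^ 2 + v ^ 2 = 2 ^ 1 * (p : ℤ) ^ (V + (j + 1)) →
          u ^ 2 - v ^ 2 = (p : ℤ) ^ V * x → (8 : ℤ) ∣ x := by
        intro u v x h hx
        have hodd : Odd ((p : ℤ) ^ (V + (j + 1))) := hpodd.pow
        obtain ⟨w, hw⟩ := hodd
        rw [hw] at h
        have hu : u % 2 = 1 ∧ v % 2 = 1 := by
          rcases Int.even_or_odd' u with ⟨i, hi | hi⟩ <;> rcases Int.even_or_odd' v with ⟨l, hl | hl⟩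
          · exfalso
            subst hi; subst hl
            ring_nf at h
            omega
          · exfalso
            subst hi; subst hl
            ring_nf at h
            omega
          · exfalso
            subst hi; subst hl
            ring_nf at h
            omega
          · omega
        have h8 : (8 : ℤ) ∣ u ^ 2 - v ^ 2 := by
          have hu8 := Int.sq_mod_four_eq_one_of_odd (x := u) (Int.odd_iff.mpr hu.1)
          obtain ⟨i, hi⟩ := Int.odd_iff.mpr hu.1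
          obtain ⟨l, hl⟩ := Int.odd_iff.mpr hu.2
          obtain ⟨i', hi'⟩ := Int.even_mul_succ_self i
          obtain ⟨l', hl'⟩ := Int.even_mul_succ_self l
          refine ⟨i' - l', ?_⟩
          subst hi; subst hl
          linear_combination 4 * hi' - 4 * hl'
        rw [hx] at h8
        have hcc : IsCoprime (8 : ℤ) ((p : ℤ) ^ V) := by
          have := hc2 V 3
          norm_num at this
          exact this
        exact hcc.dvd_of_dvd_mul_left h8
      refine ⟨8, Or.inl (a1 u v x h1 hx), Or.inl (a1 u' v' x' h2 hx'), ?_, by norm_num⟩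
      have := hc2 (j + 1) 3
      norm_num at this
      exact this
  have hm1 : m ∣ x * y' - x' * y := by
    rcases hmx with h | h
    · rcases hmx' with h' | h'
      · exact dvd_sub (h.mul_right _) (h'.mul_right _)
      · exact dvd_sub (h'.2.mul_left _) (h'.1.mul_left _)
    · exact dvd_sub (h.2.mul_left _) (h.1.mul_left _)
  have hm2 : m ∣ x * (-y') - x' * y := by
    rcases hmx with h | h
    · rcases hmx' with h' | h'
      · exact dvd_sub (h.mul_right _) (h'.mul_right _)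
      · exact dvd_sub ((dvd_neg.mpr h'.2).mul_left _) (h'.1.mul_left _)
    · exact dvd_sub ((dvd_neg.mpr h.2).mul_left _) (h.1.mul_left _)
  have hprod : ((p : ℤ) ^ (2 * (j + 1))) ∣ (x * y' - x' * y) * (x * y' + x' * y) := by
    refine ⟨(2 ^ s) ^ 2 * (x ^ 2 - x' ^ 2), ?_⟩
    have e1 : (x * y' - x' * y) * (x * y' + x' * y) = x ^ 2 * y' ^ 2 - x' ^ 2 * y ^ 2 := by ring
    have e2 : y' ^ 2 = (2 ^ s * (p : ℤ) ^ (j + 1)) ^ 2 - x' ^ 2 := by linarith
    have e3 : y ^ 2 = (2 ^ s * (p : ℤ) ^ (j + 1)) ^ 2 - x ^ 2 := by linarith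
    rw [e1, e2, e3]
    ring
  have hpy' : ¬ (p : ℤ) ∣ y' := by
    intro h
    apply hpx'
    have h3 : (p : ℤ) ∣ x' ^ 2 := by
      have : x' ^ 2 = (2 ^ s * (p : ℤ) ^ (j + 1)) ^ 2 - y' ^ 2 := by linarith
      rw [this]
      apply dvd_sub
      · exact Dvd.dvd.pow (Dvd.dvd.mul_left (dvd_pow_self _ (by omega)) _) (by norm_num)
      · exact Dvd.dvd.pow h (by norm_num)
    exact hpz.dvd_of_dvd_pow h3
  have hK : (0 : ℤ) < 2 ^ s := by positivity
  have hQ0 : (p : ℤ) ^ (j + 1) ≠ 0 := pow_ne_zero _ hp0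
  have hpow : ((p : ℤ) ^ (j + 1)) ^ 2 = (p : ℤ) ^ (2 * (j + 1)) := by
    rw [← pow_mul]; congr 1; ring
  by_cases hcase : (p : ℤ) ∣ x * y' - x' * y
  · have hn : ¬ (p : ℤ) ∣ x * y' + x' * y := by
      intro h
      have h3 : (p : ℤ) ∣ 2 * (x * y') := by
        have := dvd_add hcase h
        have e : x * y' - x' * y + (x * y' + x' * y) = 2 * (x * y') := by ring
        rwa [e] at this
      rcases hpz.dvd_or_dvd h3 with h4 | h4
      · have := Int.le_of_dvd (by norm_num) h4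
        have : (5 : ℤ) ≤ p := by exact_mod_cast hp5
        omega
      · rcases hpz.dvd_or_dvd h4 with h5 | h5
        · exact hpx h5
        · exact hpy' h5
    have hd : ((p : ℤ) ^ (j + 1)) ^ 2 ∣ x * y' - x' * y := by
      rw [hpow]
      exact hpz.pow_dvd_of_dvd_mul_right _ hn hprod
    exact l3 (2 ^ s) ((p : ℤ) ^ (j + 1)) m x y x' y' hQ0 hK hxy hxy' hd hm1 hmQ hmK
  · have hd : ((p : ℤ) ^ (j + 1)) ^ 2 ∣ x * (-y') - x' * y := by
      rw [hpow]
      have h3 := hpz.pow_dvd_of_dvd_mul_left _ hcase hprod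
      have e : x * (-y') - x' * y = -(x * y' + x' * y) := by ring
      rw [e]
      exact (dvd_neg).mpr h3
    exact l3 (2 ^ s) ((p : ℤ) ^ (j + 1)) m x y x' (-y') hQ0 hK hxy (by rw [neg_sq]; exact hxy')
      hd hm2 hmQ hmK


/-- no cube whose centre is `2 ^ s * p ^ k` -/
lemma no_prime_power (p : ℕ) (hp : p.Prime) (hp5 : 5 ≤ p) (s k : ℕ) (hs : s ≤ 1) (x a b e : ℤ)
    (hx : 0 ≤ x) (ha : 0 < a) (hb : 0 < b) (he : 0 < e)
    (s0 : IsSquare x) (s1 : IsSquare (x + a)) (s2 : IsSquare (x + b)) (s3 : IsSquare (x + e))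
    (s12 : IsSquare (x + a + b)) (s13 : IsSquare (x + a + e)) (s23 : IsSquare (x + b + e))
    (s123 : IsSquare (x + a + b + e)) (hc : 2 * x + a + b + e = 2 ^ s * (p : ℤ) ^ k) : False := by
  obtain ⟨z0, hz0⟩ := s0
  obtain ⟨z1, hz1⟩ := s1
  obtain ⟨z2, hz2⟩ := s2
  obtain ⟨z3, hz3⟩ := s3
  obtain ⟨z12, hz12⟩ := s12
  obtain ⟨z13, hz13⟩ := s13
  obtain ⟨z23, hz23⟩ := s23
  obtain ⟨z123, hz123⟩ := s123
  have hpz : Prime (p : ℤ) := Nat.prime_iff_prime_int.mp hp
  have hp0 : (p : ℤ) ≠ 0 := hpz.ne_zero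
  have hpp : (0 : ℤ) < p := by exact_mod_cast hp.pos
  have hp5' : (5 : ℤ) ≤ p := by exact_mod_cast hp5
  -- the least power of `p` that does not divide all four differences
  have hex : ∃ n : ℕ, ¬ ((p : ℤ) ^ n ∣ a + b + e ∧ (p : ℤ) ^ n ∣ b + e - a ∧
      (p : ℤ) ^ n ∣ a + e - b ∧ (p : ℤ) ^ n ∣ a + b - e) := by
    refine ⟨(a + b + e).toNat, ?_⟩
    rintro ⟨h, -⟩
    have h1 := Int.le_of_dvd (by linarith) h
    have h2 : (a + b + e).toNat < p ^ (a + b + e).toNat := Nat.lt_pow_self hp.one_lt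
    have h3 : ((a + b + e).toNat : ℤ) = a + b + e := Int.toNat_of_nonneg (by linarith)
    have h4 : ((a + b + e).toNat : ℤ) < (p : ℤ) ^ (a + b + e).toNat := by exact_mod_cast h2
    linarith
  classical
  obtain ⟨V, hV, hV1⟩ : ∃ V : ℕ, ((p : ℤ) ^ V ∣ a + b + e ∧ (p : ℤ) ^ V ∣ b + e - a ∧
      (p : ℤ) ^ V ∣ a + e - b ∧ (p : ℤ) ^ V ∣ a + b - e) ∧
      ¬ ((p : ℤ) ^ (V + 1) ∣ a + b + e ∧ (p : ℤ) ^ (V + 1) ∣ b + e - a ∧
      (p : ℤ) ^ (V + 1) ∣ a + e - b ∧ (p : ℤ) ^ (V + 1) ∣ a + b - e) := by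
    have hne : Nat.find hex ≠ 0 := by
      intro h
      have := Nat.find_spec hex
      rw [h] at this
      simp at this
    obtain ⟨V, hVe⟩ := Nat.exists_eq_succ_of_ne_zero hne
    refine ⟨V, ?_, ?_⟩
    · have := Nat.find_min hex (m := V) (by omega)
      exact not_not.mp this
    · have := Nat.find_spec hex
      rw [hVe] at this
      exact this
  obtain ⟨⟨x0, hx0⟩, ⟨x1, hx1⟩, ⟨x2, hx2⟩, ⟨x3, hx3⟩⟩ := hV
  have hpV : (0 : ℤ) < (p : ℤ) ^ V := by positivity
  have hVk : V < k := by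
    by_contra hcon
    push Not at hcon
    have hdiv : (p : ℤ) ^ k ∣ (p : ℤ) ^ V := pow_dvd_pow _ hcon
    have hcop : IsCoprime ((p : ℤ) ^ k) 2 := by
      apply IsCoprime.pow_left
      exact (Int.isCoprime_iff_gcd_eq_one.mpr (by
        have := (Nat.coprime_primes hp Nat.prime_two).mpr (by omega)
        simpa [Int.gcd] using this))
    have d0 : (p : ℤ) ^ k ∣ a + b + e := hx0 ▸ hdiv.mul_right _
    have d1 : (p : ℤ) ^ k ∣ b + e - a := hx1 ▸ hdiv.mul_right _
    have d2 : (p : ℤ) ^ k ∣ a + e - b := hx2 ▸ hdiv.mul_right _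
    have d3 : (p : ℤ) ^ k ∣ a + b - e := hx3 ▸ hdiv.mul_right _
    have da : (p : ℤ) ^ k ∣ a := by
      apply hcop.dvd_of_dvd_mul_left
      have := dvd_sub d0 d1
      have e1 : a + b + e - (b + e - a) = 2 * a := by ring
      rwa [e1] at this
    have db : (p : ℤ) ^ k ∣ b := by
      apply hcop.dvd_of_dvd_mul_left
      have := dvd_sub d0 d2
      have e1 : a + b + e - (a + e - b) = 2 * b := by ring
      rwa [e1] at this
    have de : (p : ℤ) ^ k ∣ e := by
      apply hcop.dvd_of_dvd_mul_left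
      have := dvd_sub d0 d3
      have e1 : a + b + e - (a + b - e) = 2 * e := by ring
      rwa [e1] at this
    have la := Int.le_of_dvd ha da
    have lb := Int.le_of_dvd hb db
    have le := Int.le_of_dvd he de
    have hk : (0 : ℤ) < (p : ℤ) ^ k := by positivity
    have h2s : (2 : ℤ) ^ s ≤ 2 := by
      interval_cases s <;> norm_num
    nlinarith
  -- the four representations
  have r0 : z123 ^ 2 + z0 ^ 2 = 2 ^ s * (p : ℤ) ^ k := by rw [← hc]; linear_combination -hz123 - hz0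
  have r1 : z23 ^ 2 + z1 ^ 2 = 2 ^ s * (p : ℤ) ^ k := by rw [← hc]; linear_combination -hz23 - hz1
  have r2 : z13 ^ 2 + z2 ^ 2 = 2 ^ s * (p : ℤ) ^ k := by rw [← hc]; linear_combination -hz13 - hz2
  have r3 : z12 ^ 2 + z3 ^ 2 = 2 ^ s * (p : ℤ) ^ k := by rw [← hc]; linear_combination -hz12 - hz3
  have t0 : z123 ^ 2 - z0 ^ 2 = (p : ℤ) ^ V * x0 := by rw [← hx0]; linear_combination -hz123 + hz0
  have t1 : z23 ^ 2 - z1 ^ 2 = (p : ℤ) ^ V * x1 := by rw [← hx1]; linear_combination -hz23 + hz1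
  have t2 : z13 ^ 2 - z2 ^ 2 = (p : ℤ) ^ V * x2 := by rw [← hx2]; linear_combination -hz13 + hz2
  have t3 : z12 ^ 2 - z3 ^ 2 = (p : ℤ) ^ V * x3 := by rw [← hx3]; linear_combination -hz12 + hz3
  have hpV0 : (p : ℤ) ^ V ≠ 0 := hpV.ne'
  have hsum : x0 = x1 + x2 + x3 := by
    apply mul_left_cancel₀ hpV0
    linear_combination -hx0 + hx1 + hx2 + hx3
  -- sizes
  have n12 : x1 + x2 > 0 := by
    have : (p : ℤ) ^ V * (x1 + x2) > 0 := by
      have : (p : ℤ) ^ V * (x1 + x2) = 2 * e := by linear_combination -hx1 - hx2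
      rw [this]; linarith
    exact (mul_pos_iff_of_pos_left hpV).mp this
  have n13 : x1 + x3 > 0 := by
    have : (p : ℤ) ^ V * (x1 + x3) > 0 := by
      have : (p : ℤ) ^ V * (x1 + x3) = 2 * b := by linear_combination -hx1 - hx3
      rw [this]; linarith
    exact (mul_pos_iff_of_pos_left hpV).mp this
  have n23 : x2 + x3 > 0 := by
    have : (p : ℤ) ^ V * (x2 + x3) > 0 := by
      have : (p : ℤ) ^ V * (x2 + x3) = 2 * a := by linear_combination -hx2 - hx3
      rw [this]; linarith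
    exact (mul_pos_iff_of_pos_left hpV).mp this
  have hnot : ¬ ((p : ℤ) ∣ x0 ∧ (p : ℤ) ∣ x1 ∧ (p : ℤ) ∣ x2 ∧ (p : ℤ) ∣ x3) := by
    rintro ⟨⟨y0, h0⟩, ⟨y1, h1⟩, ⟨y2, h2⟩, ⟨y3, h3⟩⟩
    apply hV1
    refine ⟨⟨y0, ?_⟩, ⟨y1, ?_⟩, ⟨y2, ?_⟩, ⟨y3, ?_⟩⟩
    · rw [hx0, h0]; ring
    · rw [hx1, h1]; ring
    · rw [hx2, h2]; ring
    · rw [hx3, h3]; ring
  have L := fun (u v u' v' y y' : ℤ) h1 h2 h3 h4 h5 h6 =>
    l2 p hp hp5 s k V hs hVk u v u' v' y y' h1 h2 h3 h4 h5 h6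
  have hp2 : ∀ y : ℤ, (p : ℤ) ∣ 2 * y → (p : ℤ) ∣ y := by
    intro y h
    rcases hpz.dvd_or_dvd h with h4 | h4
    · have := Int.le_of_dvd (by norm_num) h4
      omega
    · exact h4
  have hp3 : ∀ y : ℤ, (p : ℤ) ∣ 3 * y → (p : ℤ) ∣ y := by
    intro y h
    rcases hpz.dvd_or_dvd h with h4 | h4
    · have := Int.le_of_dvd (by norm_num) h4
      omega
    · exact h4
  -- `p ∣ x0`
  have hd0 : (p : ℤ) ∣ x0 := by
    by_contra hcon
    have q1 : (p : ℤ) ∣ x1 := by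
      by_contra h
      rcases L _ _ _ _ _ _ r0 r1 t0 t1 hcon h with h' | h' <;> omega
    have q2 : (p : ℤ) ∣ x2 := by
      by_contra h
      rcases L _ _ _ _ _ _ r0 r2 t0 t2 hcon h with h' | h' <;> omega
    have q3 : (p : ℤ) ∣ x3 := by
      by_contra h
      rcases L _ _ _ _ _ _ r0 r3 t0 t3 hcon h with h' | h' <;> omega
    exact hcon (by rw [hsum]; exact dvd_add (dvd_add q1 q2) q3)
  by_cases q1 : (p : ℤ) ∣ x1
  · by_cases q2 : (p : ℤ) ∣ x2
    · apply hnot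
      refine ⟨hd0, q1, q2, ?_⟩
      have : x3 = x0 - x1 - x2 := by linarith
      rw [this]
      exact dvd_sub (dvd_sub hd0 q1) q2
    · by_cases q3 : (p : ℤ) ∣ x3
      · apply q2
        have : x2 = x0 - x1 - x3 := by linarith
        rw [this]
        exact dvd_sub (dvd_sub hd0 q1) q3
      · rcases L _ _ _ _ _ _ r2 r3 t2 t3 q2 q3 with h' | h'
        · apply q2
          apply hp2
          have : 2 * x2 = x0 - x1 := by linarith
          rw [this]
          exact dvd_sub hd0 q1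
        · omega
  · by_cases q2 : (p : ℤ) ∣ x2
    · by_cases q3 : (p : ℤ) ∣ x3
      · apply q1
        have : x1 = x0 - x2 - x3 := by linarith
        rw [this]
        exact dvd_sub (dvd_sub hd0 q2) q3
      · rcases L _ _ _ _ _ _ r1 r3 t1 t3 q1 q3 with h' | h'
        · apply q1
          apply hp2
          have : 2 * x1 = x0 - x2 := by linarith
          rw [this]
          exact dvd_sub hd0 q2
        · omega
    · rcases L _ _ _ _ _ _ r1 r2 t1 t2 q1 q2 with h' | h'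
      · by_cases q3 : (p : ℤ) ∣ x3
        · apply q1
          apply hp2
          have : 2 * x1 = x0 - x3 := by linarith
          rw [this]
          exact dvd_sub hd0 q3
        · rcases L _ _ _ _ _ _ r1 r3 t1 t3 q1 q3 with h'' | h''
          · apply q1
            apply hp3
            have : 3 * x1 = x0 := by linarith
            rw [this]
            exact hd0
          · omega
      · omega


lemma dvd_both (r : ℕ) (hr : r.Prime) (hr4 : r % 4 = 3) (u v : ℤ) (h : (r : ℤ) ∣ u ^ 2 + v ^ 2) :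
    (r : ℤ) ∣ u ∧ (r : ℤ) ∣ v := by
  have : Fact r.Prime := ⟨hr⟩
  have h0 : (u : ZMod r) ^ 2 + (v : ZMod r) ^ 2 = 0 := by
    have := (ZMod.intCast_zmod_eq_zero_iff_dvd (u ^ 2 + v ^ 2) r).mpr h
    push_cast at this
    exact this
  have hv : (v : ZMod r) = 0 := by
    by_contra hv
    exact ZMod.mod_four_ne_three_of_sq_eq_neg_sq' hv (eq_neg_of_add_eq_zero_left h0) hr4
  have hu : (u : ZMod r) = 0 := by
    rw [hv] at h0
    simpa using h0
  exact ⟨(ZMod.intCast_zmod_eq_zero_iff_dvd u r).mp hu, (ZMod.intCast_zmod_eq_zero_iff_dvd v r).mp hv⟩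

lemma three (n : ℕ) : ∀ x a b e : ℤ, 0 ≤ x → 0 < a → 0 < b → 0 < e →
    IsSquare x → IsSquare (x + a) → IsSquare (x + b) → IsSquare (x + e) →
    IsSquare (x + a + b) → IsSquare (x + a + e) → IsSquare (x + b + e) →
    IsSquare (x + a + b + e) → 2 * x + a + b + e = n →
    ∃ p q : ℕ, p.Prime ∧ q.Prime ∧ p < q ∧ p % 4 = 1 ∧ q % 4 = 1 ∧ p ∣ n ∧ q ∣ n := by
  induction n using Nat.strong_induction_on with
  | _ n ih =>
  intro x a b e hx ha hb he s0 s1 s2 s3 s12 s13 s23 s123 hc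
  have hn0 : 0 < n := by
    have : (0 : ℤ) < n := by linarith
    exact_mod_cast this
  have hn3 : 3 ≤ n := by
    have : (3 : ℤ) ≤ n := by linarith
    exact_mod_cast this
  by_cases hA : ∃ r : ℕ, 2 ≤ r ∧ ∀ u v : ℤ, u ^ 2 + v ^ 2 = n → (r : ℤ) ∣ u ∧ (r : ℤ) ∣ v
  · obtain ⟨r, hr2, hr⟩ := hA
    obtain ⟨z0, hz0⟩ := s0
    obtain ⟨z1, hz1⟩ := s1
    obtain ⟨z2, hz2⟩ := s2
    obtain ⟨z3, hz3⟩ := s3
    obtain ⟨z12, hz12⟩ := s12
    obtain ⟨z13, hz13⟩ := s13
    obtain ⟨z23, hz23⟩ := s23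
    obtain ⟨z123, hz123⟩ := s123
    obtain ⟨⟨w123, h123⟩, ⟨w0, h0⟩⟩ := hr z123 z0 (by rw [← hc]; linear_combination -hz123 - hz0)
    obtain ⟨⟨w23, h23⟩, ⟨w1, h1⟩⟩ := hr z23 z1 (by rw [← hc]; linear_combination -hz23 - hz1)
    obtain ⟨⟨w13, h13⟩, ⟨w2, h2⟩⟩ := hr z13 z2 (by rw [← hc]; linear_combination -hz13 - hz2)
    obtain ⟨⟨w12, h12⟩, ⟨w3, h3⟩⟩ := hr z12 z3 (by rw [← hc]; linear_combination -hz12 - hz3)
    subst h123 h0 h23 h1 h13 h2 h12 h3
    have hrz : (2 : ℤ) ≤ r := by exact_mod_cast hr2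
    have hrr : (0 : ℤ) < (r : ℤ) ^ 2 := by positivity
    have hr0 : (r : ℤ) ^ 2 ≠ 0 := hrr.ne'
    have ea : a = (r : ℤ) ^ 2 * (w1 ^ 2 - w0 ^ 2) := by linear_combination hz1 - hz0
    have eb : b = (r : ℤ) ^ 2 * (w2 ^ 2 - w0 ^ 2) := by linear_combination hz2 - hz0
    have ee : e = (r : ℤ) ^ 2 * (w3 ^ 2 - w0 ^ 2) := by linear_combination hz3 - hz0
    have ha' : 0 < w1 ^ 2 - w0 ^ 2 := by
      rw [ea] at ha; exact (mul_pos_iff_of_pos_left hrr).mp ha
    have hb' : 0 < w2 ^ 2 - w0 ^ 2 := by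
      rw [eb] at hb; exact (mul_pos_iff_of_pos_left hrr).mp hb
    have he' : 0 < w3 ^ 2 - w0 ^ 2 := by
      rw [ee] at he; exact (mul_pos_iff_of_pos_left hrr).mp he
    have en : (n : ℤ) = (r : ℤ) ^ 2 *
        (2 * w0 ^ 2 + (w1 ^ 2 - w0 ^ 2) + (w2 ^ 2 - w0 ^ 2) + (w3 ^ 2 - w0 ^ 2)) := by
      rw [← hc]; linear_combination 2 * hz0 + ea + eb + ee
    have hpos : (0 : ℤ) <
        2 * w0 ^ 2 + (w1 ^ 2 - w0 ^ 2) + (w2 ^ 2 - w0 ^ 2) + (w3 ^ 2 - w0 ^ 2) := by
      have := sq_nonneg w0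
      linarith
    obtain ⟨n', hn'⟩ := Int.eq_ofNat_of_zero_le hpos.le
    have hnn : n = r ^ 2 * n' := by
      rw [hn'] at en
      exact_mod_cast en
    have hn'0 : 0 < n' := by
      have : (0 : ℤ) < n' := by rw [← hn']; exact hpos
      exact_mod_cast this
    have hlt : n' < n := by
      have h1 : 1 < r ^ 2 := Nat.one_lt_pow (by norm_num) hr2
      calc n' = 1 * n' := (one_mul _).symm
        _ < r ^ 2 * n' := Nat.mul_lt_mul_of_pos_right h1 hn'0
        _ = n := hnn.symm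
    have q12 : w0 ^ 2 + (w1 ^ 2 - w0 ^ 2) + (w2 ^ 2 - w0 ^ 2) = w12 ^ 2 := by
      apply mul_left_cancel₀ hr0
      linear_combination hz12 - ea - eb - hz0
    have q13 : w0 ^ 2 + (w1 ^ 2 - w0 ^ 2) + (w3 ^ 2 - w0 ^ 2) = w13 ^ 2 := by
      apply mul_left_cancel₀ hr0
      linear_combination hz13 - ea - ee - hz0
    have q23 : w0 ^ 2 + (w2 ^ 2 - w0 ^ 2) + (w3 ^ 2 - w0 ^ 2) = w23 ^ 2 := by
      apply mul_left_cancel₀ hr0
      linear_combination hz23 - eb - ee - hz0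
    have q123 : w0 ^ 2 + (w1 ^ 2 - w0 ^ 2) + (w2 ^ 2 - w0 ^ 2) + (w3 ^ 2 - w0 ^ 2) = w123 ^ 2 := by
      apply mul_left_cancel₀ hr0
      linear_combination hz123 - ea - eb - ee - hz0
    obtain ⟨p, q, h1, h2, h3, h4, h5, h6, h7⟩ := ih n' hlt (w0 ^ 2) (w1 ^ 2 - w0 ^ 2)
      (w2 ^ 2 - w0 ^ 2) (w3 ^ 2 - w0 ^ 2) (sq_nonneg _) ha' hb' he'
      ⟨w0, sq w0⟩ ⟨w1, by ring⟩ ⟨w2, by ring⟩ ⟨w3, by ring⟩
      ⟨w12, by rw [q12, sq]⟩ ⟨w13, by rw [q13, sq]⟩ ⟨w23, by rw [q23, sq]⟩ ⟨w123, by rw [q123, sq]⟩ hn'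
    exact ⟨p, q, h1, h2, h3, h4, h5, hnn ▸ h6.mul_left _, hnn ▸ h7.mul_left _⟩
  · by_contra hcon
    push Not at hA
    -- uniqueness of the prime
    have huniq : ∀ p q : ℕ, p.Prime → q.Prime → p % 4 = 1 → q % 4 = 1 → p ∣ n → q ∣ n → p = q := by
      intro p q h1 h2 h3 h4 h5 h6
      rcases lt_trichotomy p q with h | h | h
      · exact absurd ⟨p, q, h1, h2, h, h3, h4, h5, h6⟩ hcon
      · exact h
      · exact absurd ⟨q, p, h2, h1, h, h4, h3, h6, h5⟩ hcon
    have hno3 : ∀ r : ℕ, r.Prime → r % 4 = 3 → ¬ r ∣ n := by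
      intro r hr hr4 hd
      obtain ⟨u, v, huv, h⟩ := hA r hr.two_le
      have hd' : (r : ℤ) ∣ u ^ 2 + v ^ 2 := by rw [huv]; exact_mod_cast hd
      obtain ⟨h1, h2⟩ := dvd_both r hr hr4 u v hd'
      exact h h1 h2
    have hno4 : ¬ 4 ∣ n := by
      intro hd
      obtain ⟨u, v, huv, h⟩ := hA 2 le_rfl
      obtain ⟨w, hw⟩ := hd
      have huv' : u ^ 2 + v ^ 2 = 4 * w := by rw [huv, hw]; push_cast; ring
      rcases Int.even_or_odd' u with ⟨i, hi | hi⟩ <;> rcases Int.even_or_odd' v with ⟨l, hl | hl⟩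
      · exact h ⟨i, by rw [hi]; push_cast; ring⟩ ⟨l, by rw [hl]; push_cast; ring⟩
      · subst hi; subst hl
        ring_nf at huv'
        omega
      · subst hi; subst hl
        ring_nf at huv'
        omega
      · subst hi; subst hl
        ring_nf at huv'
        omega
    obtain ⟨p, hp, hp4, hpu⟩ : ∃ p : ℕ, p.Prime ∧ p % 4 = 1 ∧
        ∀ q : ℕ, q.Prime → q % 4 = 1 → q ∣ n → q = p := by
      by_cases h : ∃ p : ℕ, p.Prime ∧ p % 4 = 1 ∧ p ∣ n
      · obtain ⟨p, h1, h2, h3⟩ := h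
        exact ⟨p, h1, h2, fun q hq hq4 hqn => huniq q p hq h1 hq4 h2 hqn h3⟩
      · exact ⟨5, by norm_num, by norm_num, fun q hq hq4 hqn => absurd ⟨q, hq, hq4, hqn⟩ h⟩
    obtain ⟨s, m, hm, hnm⟩ := Nat.exists_eq_two_pow_mul_odd hn0.ne'
    have hs : s ≤ 1 := by
      by_contra hs
      push Not at hs
      apply hno4
      rw [hnm]
      exact Dvd.dvd.mul_right (show 4 ∣ 2 ^ s from pow_dvd_pow 2 hs) _
    have hm0 : m ≠ 0 := by
      rintro rfl
      simp at hm
    have hmp : m = p ^ m.primeFactorsList.length := by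
      apply Nat.eq_prime_pow_of_unique_prime_dvd hm0
      intro d hd hdm
      have hdn : d ∣ n := by rw [hnm]; exact hdm.mul_left _
      have hd2 : d ≠ 2 := by
        rintro rfl
        rcases hm with ⟨w, hw⟩
        omega
      have hdo := hd.odd_of_ne_two hd2
      have h3 := hno3 d hd
      have : d % 4 = 1 := by
        rcases hdo with ⟨w, hw⟩
        by_contra h1
        exact h3 (by omega) hdn
      exact hpu d hd this hdn
    have hp5 : 5 ≤ p := by
      by_contra h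
      push Not at h
      have := hp.two_le
      interval_cases p <;> omega
    refine no_prime_power p hp hp5 s m.primeFactorsList.length hs x a b e hx ha hb he s0 s1 s2 s3
      s12 s13 s23 s123 ?_
    rw [hc, hnm]
    push_cast
    rw [← Nat.cast_pow p, ← hmp]

/-- Let `a₀ + {0, a₁} + ⋯ + {0, a_d}` be a Hilbert cube in the squares, with nonzero `a_i`.  For every
face of dimension at least `3` (the elements `a₀ + ∑ i ∈ A, a i + ∑ i ∈ I, a i`, `I ⊆ B`) the common sum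
`2 (a₀ + ∑ i ∈ A, a i) + ∑ i ∈ B, a i` of the pairs of opposite elements is divisible by two different
primes congruent to `1` modulo `4`. -/
theorem result (d : ℕ) (a₀ : ℤ) (a : Fin d → ℤ) (ha : ∀ i, a i ≠ 0)
    (hsq : ∀ I : Finset (Fin d), IsSquare (a₀ + ∑ i ∈ I, a i))
    (A B : Finset (Fin d)) (hAB : Disjoint A B) (hB : 3 ≤ B.card) :
    ∃ p q : ℕ, p.Prime ∧ q.Prime ∧ p < q ∧ p % 4 = 1 ∧ q % 4 = 1 ∧
      (p : ℤ) ∣ 2 * (a₀ + ∑ i ∈ A, a i) + ∑ i ∈ B, a i ∧
      (q : ℤ) ∣ 2 * (a₀ + ∑ i ∈ A, a i) + ∑ i ∈ B, a i := by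
  classical
  obtain ⟨i, j, l, hi, hj, hl, hij, hil, hjl⟩ := Finset.two_lt_card_iff.mp hB
  set S : ℤ := a₀ + ∑ i ∈ A, a i with hS
  set x : ℤ := S + ∑ r ∈ B, (if a r < 0 then a r else 0) with hxdef
  -- all elements of the face
  have key : ∀ (P : Fin d → Prop) [DecidablePred P], IsSquare (x + ∑ r ∈ B, (if P r then |a r| else 0)) := by
    intro P _
    have h1 := hsq (A ∪ B.filter (fun r => (P r ∧ 0 < a r) ∨ (¬ P r ∧ a r < 0)))
    have hdisj : Disjoint A (B.filter (fun r => (P r ∧ 0 < a r) ∨ (¬ P r ∧ a r < 0))) :=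
      Finset.disjoint_of_subset_right (Finset.filter_subset _ _) hAB
    rw [Finset.sum_union hdisj, Finset.sum_filter] at h1
    have h2 : x + ∑ r ∈ B, (if P r then |a r| else 0) = a₀ + (∑ i ∈ A, a i +
        ∑ r ∈ B, (if (P r ∧ 0 < a r) ∨ (¬ P r ∧ a r < 0) then a r else 0)) := by
      rw [hxdef, hS, add_assoc, add_assoc, ← Finset.sum_add_distrib]
      congr 2
      apply Finset.sum_congr rfl
      intro r _
      by_cases hP : P r
      · rcases lt_or_gt_of_ne (ha r) with h | h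
        · simp [hP, h, abs_of_neg h, not_lt.mpr h.le]
        · simp [hP, h, abs_of_pos h, not_lt.mpr h.le]
      · rcases lt_or_gt_of_ne (ha r) with h | h
        · simp [hP, h]
        · simp [hP, not_lt.mpr h.le]
    rw [h2]
    exact h1
  set a' : ℤ := ∑ r ∈ B, (if r = i then |a r| else 0) with ha'
  set b' : ℤ := ∑ r ∈ B, (if r = j then |a r| else 0) with hb'
  set e' : ℤ := ∑ r ∈ B, (if r ≠ i ∧ r ≠ j then |a r| else 0) with he'
  have hpos : ∀ (P : Fin d → Prop) [DecidablePred P] (t : Fin d), t ∈ B → P t →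
      0 < ∑ r ∈ B, (if P r then |a r| else 0) := by
    intro P _ t ht hPt
    apply Finset.sum_pos'
    · intro r _
      split_ifs
      · exact abs_nonneg _
      · exact le_rfl
    · exact ⟨t, ht, by rw [if_pos hPt]; exact abs_pos.mpr (ha t)⟩
  have pa : 0 < a' := hpos (fun r => r = i) i hi rfl
  have pb : 0 < b' := hpos (fun r => r = j) j hj rfl
  have pe : 0 < e' := hpos (fun r => r ≠ i ∧ r ≠ j) l hl ⟨hil.symm, hjl.symm⟩
  have k0 : IsSquare x := by
    have := key (fun _ => False)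
    simpa using this
  have k1 : IsSquare (x + a') := by
    exact key (fun r => r = i)
  have k2 : IsSquare (x + b') := by
    exact key (fun r => r = j)
  have k3 : IsSquare (x + e') := by
    exact key (fun r => r ≠ i ∧ r ≠ j)
  have k12 : IsSquare (x + a' + b') := by
    have := key (fun r => r = i ∨ r = j)
    convert this using 1
    rw [add_assoc, ha', hb', ← Finset.sum_add_distrib]
    congr 1
    apply Finset.sum_congr rfl
    intro r _
    by_cases h1 : r = i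
    · subst h1; simp [hij]
    · simp [h1]
  have k13 : IsSquare (x + a' + e') := by
    have := key (fun r => r ≠ j)
    convert this using 1
    rw [add_assoc, ha', he', ← Finset.sum_add_distrib]
    congr 1
    apply Finset.sum_congr rfl
    intro r _
    by_cases h1 : r = i
    · subst h1; simp [hij]
    · simp [h1]
  have k23 : IsSquare (x + b' + e') := by
    have := key (fun r => r ≠ i)
    convert this using 1
    rw [add_assoc, hb', he', ← Finset.sum_add_distrib]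
    congr 1
    apply Finset.sum_congr rfl
    intro r _
    by_cases h1 : r = j
    · subst h1; simp [hij.symm]
    · simp [h1]
  have k123 : IsSquare (x + a' + b' + e') := by
    have := key (fun _ => True)
    convert this using 1
    rw [add_assoc, add_assoc, ha', hb', he', ← Finset.sum_add_distrib, ← Finset.sum_add_distrib]
    congr 1
    apply Finset.sum_congr rfl
    intro r _
    by_cases h1 : r = i
    · subst h1; simp [hij]
    · by_cases h2 : r = j
      · subst h2; simp [hij.symm]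
      · simp [h1, h2]
  have hx0 : 0 ≤ x := k0.nonneg
  have hc : 2 * x + a' + b' + e' = 2 * S + ∑ i ∈ B, a i := by
    have e1 : a' + b' + e' = ∑ r ∈ B, |a r| := by
      rw [ha', hb', he', ← Finset.sum_add_distrib, ← Finset.sum_add_distrib]
      apply Finset.sum_congr rfl
      intro r _
      by_cases h1 : r = i
      · subst h1; simp [hij]
      · by_cases h2 : r = j
        · subst h2; simp [hij.symm]
        · simp [h1, h2]
    have e2 : 2 * ∑ r ∈ B, (if a r < 0 then a r else 0) + ∑ r ∈ B, |a r| = ∑ i ∈ B, a i := by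
      rw [Finset.mul_sum, ← Finset.sum_add_distrib]
      apply Finset.sum_congr rfl
      intro r _
      rcases lt_or_gt_of_ne (ha r) with h | h
      · rw [if_pos h, abs_of_neg h]; ring
      · rw [if_neg (not_lt.mpr h.le), abs_of_pos h]; ring
    rw [← e2, ← e1, hxdef]
    ring
  obtain ⟨n, hn⟩ := Int.eq_ofNat_of_zero_le (show 0 ≤ 2 * x + a' + b' + e' by linarith)
  obtain ⟨p, q, h1, h2, h3, h4, h5, h6, h7⟩ :=
    three n x a' b' e' hx0 pa pb pe k0 k1 k2 k3 k12 k13 k23 k123 hn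
  refine ⟨p, q, h1, h2, h3, h4, h5, ?_, ?_⟩
  · rw [← hc, hn]; exact_mod_cast h6
  · rw [← hc, hn]; exact_mod_cast h7

end Pool.Agent.Results.MP_de59a9_nt.TwoSplitPrimes
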